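import Mathlib

/-! # Bases are not thin; a converse for sets of density zero -/

set_option autoImplicit false

namespace Pool.Agent.Y384.SM.Conv

open Finset Filter Topology
open scoped Pointwise

open Classical in
/-- a basis of order `h` has at least `n ^ (1 / h)` elements below `n` -/
lemma basis_count {B : Set ℕ} {h : ℕ}
    (hB : ∀ n : ℕ, ∃ f : Fin h → ℕ, (∀ i, f i ∈ B) ∧ ∑ i, f i = n) (n : ℕ) :
    n ≤ ((range n).filter (· ∈ B)).card ^ h := by
  have h1 : range n ⊆ (Fintype.piFinset (fun _ : Fin h => (range n).filter (· ∈ B))).image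
      (fun f => ∑ i, f i) := by
    intro x hx
    obtain ⟨f, hf, hfx⟩ := hB x
    rw [mem_image]
    refine ⟨f, ?_, hfx⟩
    rw [Fintype.mem_piFinset]
    intro i
    rw [mem_filter, mem_range]
    refine ⟨?_, hf i⟩
    have h2 : f i ≤ ∑ i, f i := single_le_sum (fun j _ => Nat.zero_le (f j)) (mem_univ i)
    rw [mem_range] at hx
    omega
  have h2 := card_le_card h1
  rw [card_range] at h2
  refine h2.trans (card_image_le.trans ?_)
  rw [Fintype.card_piFinset_const]

lemma one_mem_of_basis {B : Set ℕ} {h : ℕ}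
    (hB : ∀ n : ℕ, ∃ f : Fin h → ℕ, (∀ i, f i ∈ B) ∧ ∑ i, f i = n) : 1 ∈ B := by
  obtain ⟨f, hf, hf1⟩ := hB 1
  have h1 : ∃ i ∈ (univ : Finset (Fin h)), f i ≠ 0 := by
    by_contra hcon
    push Not at hcon
    rw [sum_eq_zero hcon] at hf1
    omega
  obtain ⟨i, -, hi⟩ := h1
  have h2 : f i ≤ ∑ i, f i := single_le_sum (fun j _ => Nat.zero_le (f j)) (mem_univ i)
  have h3 : f i = 1 := by omega
  rw [← h3]
  exact hf i

lemma tendsto_log : Tendsto (fun n : ℕ => Nat.log 2 n) atTop atTop := by
  rw [tendsto_atTop_atTop]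
  intro M
  refine ⟨2 ^ M, fun n hn => ?_⟩
  exact Nat.le_log_of_pow_le (by norm_num) hn

lemma log_pow_le (h : ℕ) : ∀ᶠ n : ℕ in atTop, (Nat.log 2 n) ^ h ≤ n := by
  have h1 : Tendsto (fun m : ℕ => (m : ℝ) ^ h / 2 ^ m) atTop (𝓝 0) :=
    tendsto_pow_const_div_const_pow_of_one_lt h (by norm_num)
  have h2 : ∀ᶠ m : ℕ in atTop, m ^ h ≤ 2 ^ m := by
    filter_upwards [h1.eventually (gt_mem_nhds (show (0 : ℝ) < 1 by norm_num))] with m hm
    rw [div_lt_one (by positivity)] at hm
    exact_mod_cast hm.le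
  filter_upwards [tendsto_log.eventually h2, eventually_ge_atTop 1] with n hn hn1
  exact hn.trans (Nat.pow_log_le_self 2 (by omega))

open Classical in
lemma basis_log {B : Set ℕ} {h : ℕ}
    (hB : ∀ n : ℕ, ∃ f : Fin h → ℕ, (∀ i, f i ∈ B) ∧ ∑ i, f i = n) :
    ∀ᶠ n : ℕ in atTop, Nat.log 2 n ≤ ((range n).filter (· ∈ B)).card := by
  have hh : h ≠ 0 := by
    rintro rfl
    obtain ⟨f, -, hf⟩ := hB 1
    simp at hf
  filter_upwards [log_pow_le h] with n hn
  exact (Nat.pow_le_pow_iff_left hh).1 (hn.trans (basis_count hB n))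

/-- the elements of the thin set -/
def b (f : ℕ → ℕ) : ℕ → ℕ
  | 0 => 0
  | k + 1 => b f k + f (k + 1) + 1

lemma b_lt (f : ℕ → ℕ) (k : ℕ) : b f k < b f (k + 1) := by
  simp only [b]
  omega

lemma b_strictMono (f : ℕ → ℕ) : StrictMono (b f) := strictMono_nat_of_lt_succ (b_lt f)

lemma b_level (f : ℕ → ℕ) (n : ℕ) : ∃ J, b f J ≤ n ∧ n < b f (J + 1) := by
  classical
  have hub : ∃ m, n < b f m :=
    ⟨n + 1, lt_of_lt_of_le (Nat.lt_succ_self n) (b_strictMono f).le_apply⟩
  have h1 := Nat.find_spec hub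
  set m := Nat.find hub with hm
  have h2 : 0 < m := by
    rcases Nat.eq_zero_or_pos m with h0 | h0
    · rw [h0] at h1
      simp [b] at h1
    · exact h0
  have h3 : ¬ n < b f (m - 1) := Nat.find_min hub (by omega)
  refine ⟨m - 1, by omega, ?_⟩
  have e : m - 1 + 1 = m := by omega
  rw [e]
  exact h1

open Classical in
/-- every set of density zero has an infinite set `B` for which the sumset has density zero -/
theorem converse (A : Set ℕ)
    (hA : Tendsto (fun n : ℕ => (((Icc 1 n).filter (· ∈ A)).card : ℝ) / n) atTop (𝓝 0)) :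
    ∃ B : Set ℕ, 0 ∈ B ∧ 1 ∈ B ∧ B.Infinite ∧
      Tendsto (fun n : ℕ => (((Icc 1 n).filter (· ∈ A + B)).card : ℝ) / n) atTop (𝓝 0) := by
  -- the counting function of `A`, with `0` counted
  have h0 : ∀ n, ((range (n + 1)).filter (· ∈ A)).card ≤ ((Icc 1 n).filter (· ∈ A)).card + 1 := by
    intro n
    have hs : (range (n + 1)).filter (· ∈ A) ⊆ insert 0 ((Icc 1 n).filter (· ∈ A)) := by
      intro x hx
      rw [mem_filter, mem_range] at hx
      rw [mem_insert, mem_filter, mem_Icc]
      rcases Nat.eq_zero_or_pos x with h | h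
      · exact Or.inl h
      · exact Or.inr ⟨⟨h, by omega⟩, hx.2⟩
    exact (card_le_card hs).trans (card_insert_le _ _)
  have hf : ∀ k : ℕ, ∃ K : ℕ, ∀ n ≥ K, (k + 2) ^ 2 * ((range (n + 1)).filter (· ∈ A)).card ≤ n := by
    intro k
    have hpos : (0 : ℝ) < 1 / (2 * ((k : ℝ) + 2) ^ 2) := by positivity
    obtain ⟨K, hK⟩ := eventually_atTop.1 (hA.eventually (gt_mem_nhds hpos))
    refine ⟨max (K + 1) (2 * (k + 2) ^ 2), fun n hn => ?_⟩
    have hn1 : K + 1 ≤ n := (le_max_left _ _).trans hn
    have hn2 : 2 * (k + 2) ^ 2 ≤ n := (le_max_right _ _).trans hn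
    have hnpos : (0 : ℝ) < n := by
      have : 0 < n := by omega
      exact_mod_cast this
    have h1 := hK n (by omega)
    rw [div_lt_div_iff₀ hnpos (by positivity), one_mul] at h1
    have h2 : ((Icc 1 n).filter (· ∈ A)).card * (2 * (k + 2) ^ 2) < n := by exact_mod_cast h1
    have h3 := h0 n
    calc (k + 2) ^ 2 * ((range (n + 1)).filter (· ∈ A)).card
        ≤ (k + 2) ^ 2 * (((Icc 1 n).filter (· ∈ A)).card + 1) := Nat.mul_le_mul_left _ h3
      _ = (k + 2) ^ 2 * ((Icc 1 n).filter (· ∈ A)).card + (k + 2) ^ 2 := by ring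
      _ ≤ n := by
        have e : ((Icc 1 n).filter (· ∈ A)).card * (2 * (k + 2) ^ 2) =
          2 * ((k + 2) ^ 2 * ((Icc 1 n).filter (· ∈ A)).card) := by ring
        omega
  choose f hf using hf
  refine ⟨{1} ∪ Set.range (b f), Or.inr ⟨0, rfl⟩, Or.inl rfl, ?_, ?_⟩
  · exact (Set.infinite_range_of_injective (b_strictMono f).injective).mono
      Set.subset_union_right
  · have key : ∀ J n, 1 ≤ J → b f J ≤ n → n < b f (J + 1) →
        (J + 2) * ((Icc 1 n).filter (· ∈ A + ({1} ∪ Set.range (b f)))).card ≤ n := by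
      intro J n hJ h1 h2
      have hfJ : f J ≤ n := by
        obtain ⟨i, rfl⟩ : ∃ i, J = i + 1 := ⟨J - 1, by omega⟩
        simp only [b] at h1
        omega
      have hsub : (Icc 1 n).filter (· ∈ A + ({1} ∪ Set.range (b f))) ⊆
          (insert 1 ((range (J + 1)).image (b f)) ×ˢ ((range (n + 1)).filter (· ∈ A))).image
            (fun t => t.2 + t.1) := by
        intro x hx
        rw [mem_filter, mem_Icc, Set.mem_add] at hx
        obtain ⟨⟨hx1, hxn⟩, a, ha, c, hc, hac⟩ := hx
        rw [mem_image]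
        refine ⟨(c, a), ?_, hac⟩
        rw [mem_product, mem_insert, mem_filter, mem_range, mem_image]
        refine ⟨?_, ⟨by simp only; omega, ha⟩⟩
        rcases hc with hc | ⟨i, hi⟩
        · exact Or.inl hc
        · right
          refine ⟨i, ?_, hi⟩
          rw [mem_range]
          by_contra hcon
          push Not at hcon
          have := (b_strictMono f).monotone hcon
          omega
      have hc := (card_le_card hsub).trans card_image_le
      rw [card_product] at hc
      have hc2 : (insert 1 ((range (J + 1)).image (b f))).card ≤ J + 2 := by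
        refine (card_insert_le _ _).trans ?_
        have := card_image_le (s := range (J + 1)) (f := b f)
        rw [card_range] at this
        omega
      calc (J + 2) * ((Icc 1 n).filter (· ∈ A + ({1} ∪ Set.range (b f)))).card
          ≤ (J + 2) * ((J + 2) * ((range (n + 1)).filter (· ∈ A)).card) :=
            Nat.mul_le_mul_left _ (hc.trans (Nat.mul_le_mul_right _ hc2))
        _ = (J + 2) ^ 2 * ((range (n + 1)).filter (· ∈ A)).card := by ring
        _ ≤ n := hf J n hfJ
    rw [Metric.tendsto_atTop]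
    intro ε hε
    obtain ⟨K, hK⟩ := exists_nat_gt (1 / ε)
    refine ⟨b f (K + 1), fun n hn => ?_⟩
    obtain ⟨J, hJ1, hJ2⟩ := b_level f n
    have hJK : K + 1 ≤ J := by
      by_contra hcon
      push Not at hcon
      have := (b_strictMono f).monotone (show J + 1 ≤ K + 1 by omega)
      omega
    have h1 := key J n (by omega) hJ1 hJ2
    set c := ((Icc 1 n).filter (· ∈ A + ({1} ∪ Set.range (b f)))).card with hc
    have hnpos : (0 : ℝ) < n := by
      have h2 : b f 0 < b f (K + 1) := b_strictMono f (by omega)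
      have : 0 < n := by omega
      exact_mod_cast this
    have hKpos : (0 : ℝ) < K := lt_trans (by positivity) hK
    rw [Real.dist_eq, sub_zero, abs_of_nonneg (by positivity)]
    have h3 : ((J : ℝ) + 2) * c ≤ n := by exact_mod_cast h1
    have h4 : (K : ℝ) ≤ J + 2 := by
      have : K ≤ J + 2 := by omega
      exact_mod_cast this
    have h5 : (K : ℝ) * c ≤ n := le_trans (mul_le_mul_of_nonneg_right h4 (by positivity)) h3
    rw [div_lt_iff₀ hnpos]
    rw [div_lt_iff₀ hε] at hK
    -- `c ≤ n / K < ε n`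
    have h6 : (K : ℝ) * c < K * (ε * n) := by nlinarith
    exact lt_of_mul_lt_mul_left h6 hKpos.le

end Pool.Agent.Y384.SM.Conv
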