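import Pool.Agent.Y384.SM.Quad

/-! # For every order the optimal order of magnitude -/

set_option autoImplicit false

namespace Pool.Agent.Y384.SM.Order

open Finset Pool.Agent.Y384.SM.Quad
open scoped Pointwise

/-- the dyadic parameter -/
def q (j : ℕ) : ℕ := 2 ^ (j + 1)

lemma q_pos (j : ℕ) : 0 < q j := by unfold q; positivity

lemma q_two (j : ℕ) : 2 ≤ q j := by
  unfold q
  calc 2 = 2 ^ 1 := by norm_num
    _ ≤ 2 ^ (j + 1) := Nat.pow_le_pow_right (by norm_num) (by omega)

lemma q_succ (j : ℕ) : q (j + 1) = 2 * q j := by unfold q; ring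

lemma exists_p (j : ℕ) : ∃ p, Nat.Prime p ∧ q j < p ∧ p ≤ 2 * q j :=
  Nat.exists_prime_lt_and_le_two_mul (q j) (q_pos j).ne'

/-- a prime in `(q j, 2 * q j]` -/
noncomputable def pr (j : ℕ) : ℕ := (exists_p j).choose

lemma pr_prime (j : ℕ) : Nat.Prime (pr j) := (exists_p j).choose_spec.1
lemma q_lt_pr (j : ℕ) : q j < pr j := (exists_p j).choose_spec.2.1
lemma pr_le (j : ℕ) : pr j ≤ 2 * q j := (exists_p j).choose_spec.2.2

instance (j : ℕ) : Fact (pr j).Prime := ⟨pr_prime j⟩
instance (j : ℕ) : NeZero (pr j) := ⟨(pr_prime j).ne_zero⟩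

/-- the position of the block -/
def U (k j : ℕ) : ℕ := (4 * q j) ^ (k + 2)

/-- the block -/
noncomputable def block (k j : ℕ) : Finset ℕ := (Q (pr j) k).image (· + U k j)

lemma size_le (k j : ℕ) : 2 * (pr j * (2 * pr j) ^ (k + 1)) ≤ U k j := by
  have h1 := pr_le j
  have h2 : 2 * pr j ≤ 4 * q j := by omega
  unfold U
  calc 2 * (pr j * (2 * pr j) ^ (k + 1)) = (2 * pr j) * (2 * pr j) ^ (k + 1) := by ring
    _ ≤ (4 * q j) * (4 * q j) ^ (k + 1) := Nat.mul_le_mul h2 (Nat.pow_le_pow_left h2 _)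
    _ = (4 * q j) ^ (k + 2) := by ring

lemma block_bounds {k j a : ℕ} (ha : a ∈ block k j) : U k j ≤ a ∧ 2 * a < 3 * U k j := by
  unfold block at ha
  rw [mem_image] at ha
  obtain ⟨b, hb, rfl⟩ := ha
  have h1 := Q_lt hb
  have h2 := size_le k j
  constructor
  · omega
  · have : 2 * b < 2 * (pr j * (2 * pr j) ^ (k + 1)) := by omega
    omega

lemma card_block (k j : ℕ) : (block k j).card = pr j ^ (k + 1) := by
  unfold block
  rw [card_image_of_injective _ (add_left_injective _), card_Q]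

lemma U_pos (k j : ℕ) : 0 < U k j := by
  unfold U
  have := q_pos j
  positivity

lemma U_succ (k j : ℕ) : U k (j + 1) = 2 ^ (k + 2) * U k j := by
  unfold U
  rw [q_succ, ← mul_pow]
  congr 1
  ring

lemma four_mul_U_le (k j : ℕ) : 4 * U k j ≤ U k (j + 1) := by
  rw [U_succ]
  apply Nat.mul_le_mul_right
  calc 4 = 2 ^ 2 := by norm_num
    _ ≤ 2 ^ (k + 2) := Nat.pow_le_pow_right (by norm_num) (by omega)

lemma U_strictMono (k : ℕ) : StrictMono (U k) :=
  strictMono_nat_of_lt_succ (fun j => by have := four_mul_U_le k j; have := U_pos k j; omega)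

/-- the set -/
def A (k : ℕ) : Set ℕ := {0} ∪ ⋃ j, (block k j : Set ℕ)

lemma level {f : ℕ → ℕ} (hf : StrictMono f) {n : ℕ} (h : f 0 ≤ n) :
    ∃ J, f J ≤ n ∧ n < f (J + 1) := by
  classical
  have hub : ∃ m, n < f m := ⟨n + 1, lt_of_lt_of_le (Nat.lt_succ_self n) hf.le_apply⟩
  have h1 := Nat.find_spec hub
  set m := Nat.find hub with hm
  have h2 : 0 < m := by
    rcases Nat.eq_zero_or_pos m with h0 | h0
    · rw [h0] at h1
      omega
    · exact h0
  have h3 : ¬ n < f (m - 1) := Nat.find_min hub (by omega)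
  refine ⟨m - 1, by omega, ?_⟩
  have e : m - 1 + 1 = m := by omega
  rw [e]
  exact h1

open Classical in
lemma cnt_le (k J : ℕ) :
    ((Ico 1 (U k J)).filter (· ∈ A k)).card ≤ (2 * q J) ^ (k + 1) := by
  induction J with
  | zero =>
    have h : (Ico 1 (U k 0)).filter (· ∈ A k) = ∅ := by
      rw [filter_eq_empty_iff]
      intro x hx hxA
      rw [mem_Ico] at hx
      rcases hxA with h0 | h0
      · have : x = 0 := h0
        omega
      · obtain ⟨j, hj⟩ := Set.mem_iUnion.1 h0
        have h1 := (block_bounds (mem_coe.1 hj)).1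
        have h2 := (U_strictMono k).monotone (Nat.zero_le j)
        omega
    rw [h, card_empty]
    exact Nat.zero_le _
  | succ J ih =>
    have h : (Ico 1 (U k (J + 1))).filter (· ∈ A k) ⊆
        (Ico 1 (U k J)).filter (· ∈ A k) ∪ block k J := by
      intro x hx
      rw [mem_filter, mem_Ico] at hx
      rw [mem_union, mem_filter, mem_Ico]
      rcases lt_or_ge x (U k J) with hlt | hge
      · exact Or.inl ⟨⟨hx.1.1, hlt⟩, hx.2⟩
      · right
        rcases hx.2 with h0 | h0
        · have : x = 0 := h0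
          omega
        · obtain ⟨j, hj⟩ := Set.mem_iUnion.1 h0
          rw [mem_coe] at hj
          have h1 := block_bounds hj
          have h3 : j = J := by
            rcases lt_trichotomy j J with hl | hl | hl
            · have h4 := (U_strictMono k).monotone (show j + 1 ≤ J from hl)
              have h5 := four_mul_U_le k j
              omega
            · exact hl
            · have h4 := (U_strictMono k).monotone (show J + 1 ≤ j from hl)
              omega
          rw [← h3]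
          exact hj
    refine (card_le_card h).trans ((card_union_le _ _).trans ?_)
    rw [card_block]
    have h1 : pr J ^ (k + 1) ≤ (2 * q J) ^ (k + 1) := Nat.pow_le_pow_left (pr_le J) _
    have h2 : 2 * (2 * q J) ^ (k + 1) ≤ (2 * q (J + 1)) ^ (k + 1) := by
      rw [q_succ]
      calc 2 * (2 * q J) ^ (k + 1) ≤ 2 ^ (k + 1) * (2 * q J) ^ (k + 1) := by
            apply Nat.mul_le_mul_right
            calc 2 = 2 ^ 1 := by norm_num
              _ ≤ 2 ^ (k + 1) := Nat.pow_le_pow_right (by norm_num) (by omega)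
        _ = (2 * (2 * q J)) ^ (k + 1) := by rw [← mul_pow]
    omega

open Classical in
/-- the upper bound for the counting function -/
theorem count_bound (k n : ℕ) :
    ((Icc 1 n).filter (· ∈ A k)).card ^ (k + 2) ≤ n ^ (k + 1) := by
  rcases lt_or_ge n (U k 0) with h | h
  · have h1 : (Icc 1 n).filter (· ∈ A k) ⊆ (Ico 1 (U k 0)).filter (· ∈ A k) := by
      apply filter_subset_filter
      intro x hx
      rw [mem_Icc] at hx
      rw [mem_Ico]
      omega
    have h2 : (Ico 1 (U k 0)).filter (· ∈ A k) = ∅ := by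
      rw [filter_eq_empty_iff]
      intro x hx hxA
      rw [mem_Ico] at hx
      rcases hxA with h0 | h0
      · have : x = 0 := h0
        omega
      · obtain ⟨j, hj⟩ := Set.mem_iUnion.1 h0
        have h1 := (block_bounds (mem_coe.1 hj)).1
        have h2 := (U_strictMono k).monotone (Nat.zero_le j)
        omega
    rw [h2, subset_empty] at h1
    rw [h1, card_empty, zero_pow (by omega)]
    exact Nat.zero_le _
  · obtain ⟨J, h1, h2⟩ := level (U_strictMono k) h
    have h3 : ((Icc 1 n).filter (· ∈ A k)).card ≤ (2 * q (J + 1)) ^ (k + 1) := by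
      refine (card_le_card ?_).trans (cnt_le k (J + 1))
      apply filter_subset_filter
      intro x hx
      rw [mem_Icc] at hx
      rw [mem_Ico]
      omega
    calc ((Icc 1 n).filter (· ∈ A k)).card ^ (k + 2)
        ≤ ((2 * q (J + 1)) ^ (k + 1)) ^ (k + 2) := Nat.pow_le_pow_left h3 _
      _ = ((4 * q J) ^ (k + 2)) ^ (k + 1) := by
          rw [q_succ, ← pow_mul, ← pow_mul, mul_comm (k + 1) (k + 2)]
          congr 1
          ring
      _ ≤ n ^ (k + 1) := Nat.pow_le_pow_left h1 _

lemma one_notMem_A (k : ℕ) : 1 ∉ A k := by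
  rintro (h | h)
  · exact one_ne_zero h
  · obtain ⟨j, hj⟩ := Set.mem_iUnion.1 h
    have h1 := (block_bounds (mem_coe.1 hj)).1
    have h2 := q_two j
    have h3 : (4 * q j) ^ 1 ≤ (4 * q j) ^ (k + 2) := Nat.pow_le_pow_right (by omega) (by omega)
    unfold U at h1
    rw [pow_one] at h3
    omega

open Classical in
lemma stage {k : ℕ} {B : Set ℕ}
    (hB : ∀ n, n ≤ ((range (n + 1)).filter (· ∈ B)).card ^ (k + 2)) (J : ℕ) :
    q J ^ (k + 2) ≤ 2 * ((Ioc 0 (2 * U k J)).filter (· ∈ A k + B)).card := by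
  have h1 : q J ≤ ((range (q J ^ (k + 2) + 1)).filter (· ∈ B)).card := by
    by_contra hlt
    push Not at hlt
    have h2 := hB (q J ^ (k + 2))
    have h3 := Nat.pow_lt_pow_left hlt (show k + 2 ≠ 0 by omega)
    omega
  obtain ⟨R, hR, hRc⟩ := exists_subset_card_eq h1
  have hp2 : 2 < pr J := by
    have := q_lt_pr J
    have := q_two J
    omega
  have h4 := sumset_card (S := Q (pr J) k) (c := pr J ^ k)
    (fun y z hyz => inter_card_le hp2 hyz) R
  rw [hRc, card_Q] at h4
  have h5 : (Q (pr J) k + R).card ≤ ((Ioc 0 (2 * U k J)).filter (· ∈ A k + B)).card := by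
    refine card_le_card_of_injOn (fun x => x + U k J) ?_ ?_
    · intro x hx
      rw [mem_coe, mem_add] at hx
      obtain ⟨a, ha, b, hb, rfl⟩ := hx
      have hb' := hR hb
      rw [mem_filter, mem_range] at hb'
      have haU : a + U k J ∈ block k J := mem_image.2 ⟨a, ha, rfl⟩
      have hbd := block_bounds haU
      rw [mem_coe, mem_filter, mem_Ioc]
      have hq : 2 * (q J ^ (k + 2)) ≤ U k J := by
        unfold U
        rw [mul_pow]
        apply Nat.mul_le_mul_right
        calc 2 ≤ 4 ^ 1 := by norm_num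
          _ ≤ 4 ^ (k + 2) := Nat.pow_le_pow_right (by norm_num) (by omega)
      have hU := U_pos k J
      show (0 < a + b + U k J ∧ a + b + U k J ≤ 2 * U k J) ∧ a + b + U k J ∈ A k + B
      refine ⟨⟨by omega, by omega⟩, ?_⟩
      rw [Set.mem_add]
      exact ⟨a + U k J, Or.inr (Set.mem_iUnion.2 ⟨J, mem_coe.2 haU⟩), b, hb'.2, by omega⟩
    · intro x _ y _ hxy
      exact Nat.add_right_cancel hxy
  have hq1 := q_lt_pr J
  have h6 : q J ^ (k + 2) ≤ 2 * (Q (pr J) k + R).card := by
    have h7 : pr J ^ k * q J ^ 2 ≤ q J * pr J ^ (k + 1) := by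
      calc pr J ^ k * q J ^ 2 = q J * (pr J ^ k * q J) := by ring
        _ ≤ q J * (pr J ^ k * pr J) := Nat.mul_le_mul_left _ (Nat.mul_le_mul_left _ hq1.le)
        _ = q J * pr J ^ (k + 1) := by ring
    have h8 : q J ^ (k + 2) ≤ q J * pr J ^ (k + 1) := by
      calc q J ^ (k + 2) = q J * q J ^ (k + 1) := by ring
        _ ≤ q J * pr J ^ (k + 1) := Nat.mul_le_mul_left _ (Nat.pow_le_pow_left hq1.le _)
    omega
  omega

open Classical in
/-- the lower bound for the counting function of the sumset -/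
theorem lower {k : ℕ} {B : Set ℕ} (h1B : 1 ∈ B)
    (hB : ∀ n, n ≤ ((range (n + 1)).filter (· ∈ B)).card ^ (k + 2)) (n : ℕ) (hn : 0 < n) :
    n ≤ 4 * 8 ^ (k + 2) * ((Ioc 0 n).filter (· ∈ A k + B)).card := by
  have hmono : StrictMono (fun j => 2 * U k j) := fun a b hab => by
    have := U_strictMono k hab
    simp only
    omega
  have hU : ∀ j, 2 * U k j = 2 * 4 ^ (k + 2) * q j ^ (k + 2) := by
    intro j
    unfold U
    rw [mul_pow]
    ring
  have e8 : (8 : ℕ) ^ (k + 2) = 4 ^ (k + 2) * 2 ^ (k + 2) := by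
    rw [← mul_pow]
    norm_num
  rcases lt_or_ge n (2 * U k 0) with h | h
  · have h1 : 1 ≤ ((Ioc 0 n).filter (· ∈ A k + B)).card := by
      rw [Nat.one_le_iff_ne_zero, ← Nat.pos_iff_ne_zero, card_pos]
      refine ⟨1, mem_filter.2 ⟨mem_Ioc.2 ⟨by omega, by omega⟩, ?_⟩⟩
      rw [Set.mem_add]
      exact ⟨0, Or.inl rfl, 1, h1B, rfl⟩
    have h2 : 2 * U k 0 = 2 * 8 ^ (k + 2) := by
      rw [hU, e8]
      unfold q
      ring
    calc n ≤ 2 * 8 ^ (k + 2) := by omega
      _ ≤ 4 * 8 ^ (k + 2) * 1 := by omega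
      _ ≤ 4 * 8 ^ (k + 2) * ((Ioc 0 n).filter (· ∈ A k + B)).card := Nat.mul_le_mul_left _ h1
  · obtain ⟨J, h1, h2⟩ := level (f := fun j => 2 * U k j) hmono h
    have h3 := stage hB J
    have h4 : ((Ioc 0 (2 * U k J)).filter (· ∈ A k + B)).card ≤
        ((Ioc 0 n).filter (· ∈ A k + B)).card := by
      apply card_le_card
      apply filter_subset_filter
      exact Ioc_subset_Ioc le_rfl h1
    have h5 : 2 * U k (J + 1) = 2 * 8 ^ (k + 2) * q J ^ (k + 2) := by
      rw [hU, q_succ, mul_pow, e8]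
      ring
    calc n ≤ 2 * 8 ^ (k + 2) * q J ^ (k + 2) := by omega
      _ ≤ 2 * 8 ^ (k + 2) * (2 * ((Ioc 0 n).filter (· ∈ A k + B)).card) :=
          Nat.mul_le_mul_left _ (h3.trans (Nat.mul_le_mul_left _ h4))
      _ = 4 * 8 ^ (k + 2) * ((Ioc 0 n).filter (· ∈ A k + B)).card := by ring

end Pool.Agent.Y384.SM.Order
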