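import Pool.Agent.Y384.SM.Par

/-! # Parabola sets meet almost all translates of `k` given integers -/

set_option autoImplicit false

namespace Pool.Agent.Y384.SM.Cov

open Finset Pool.Agent.Y384.SM.Par

open Classical in
lemma count_shift {Q : ℕ → Prop} {a : ℕ} (hQ : Function.Periodic Q a) (s b : ℕ) (hb : b ≤ s) :
    ((Ico s (s + a)).filter (fun x => Q (x - b))).card = ((range a).filter Q).card := by
  have h1 : ((Ico s (s + a)).filter (fun x => Q (x - b))).card =
      ((Ico (s - b) (s - b + a)).filter Q).card := by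
    refine card_nbij' (fun x => x - b) (fun x => x + b) ?_ ?_ ?_ ?_
    · intro x hx
      simp only [coe_filter, mem_Ico, Set.mem_ofPred_eq] at hx ⊢
      exact ⟨⟨by omega, by omega⟩, hx.2⟩
    · intro x hx
      simp only [coe_filter, mem_Ico, Set.mem_ofPred_eq] at hx ⊢
      refine ⟨⟨by omega, by omega⟩, ?_⟩
      rw [Nat.add_sub_cancel]
      exact hx.2
    · intro x hx
      simp only [coe_filter, mem_Ico, Set.mem_ofPred_eq] at hx
      exact Nat.sub_add_cancel (by omega)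
    · intro x hx
      simp only [Nat.add_sub_cancel]
  rw [h1, Nat.filter_Ico_card_eq_of_periodic _ _ _ hQ, Nat.count_eq_card_filter_range]

lemma periodic_S {p : ℕ} (hp : 0 < p) (j : ℕ) : Function.Periodic (fun n => n ∈ S p j) (p ^ 2) :=
  fun n => propext (S_periodic hp j n)

lemma periodic_pair {p : ℕ} (hp : 0 < p) (j d : ℕ) :
    Function.Periodic (fun n => n ∈ S p j ∧ n + d ∈ S p j) (p ^ 2) := by
  intro n
  have h := S_periodic hp j n
  have h' := S_periodic hp j (n + d)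
  have e : n + p ^ 2 + d = n + d + p ^ 2 := by ring
  simp only [e, h, h']

open Classical in
/-- the number of translates hitting `x` -/
noncomputable def N (p j : ℕ) (B : Finset ℕ) (x : ℕ) : ℕ :=
  (B.filter (fun b => x - b ∈ S p j)).card

open Classical in
lemma sum_N {p : ℕ} [NeZero p] {j : ℕ} (hj : j ≤ p) {B : Finset ℕ} (hB : ∀ b ∈ B, b < p) :
    ∑ x ∈ Ico p (p + p ^ 2), N p j B x = B.card * (p * j) := by
  have hp : 0 < p := NeZero.pos p
  unfold N
  simp_rw [card_filter]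
  rw [sum_comm]
  have h : ∀ b ∈ B, (∑ x ∈ Ico p (p + p ^ 2), if x - b ∈ S p j then 1 else 0) = p * j := by
    intro b hb
    rw [← card_filter, count_shift (Q := fun n => n ∈ S p j) (periodic_S hp j) p b (hB b hb).le,
      card_S hj]
  rw [sum_congr rfl h, sum_const, smul_eq_mul]

open Classical in
lemma pair_le {p : ℕ} [Fact p.Prime] (hp2 : 2 < p) {j : ℕ} (hj : j ≤ p) {b b' : ℕ} (hb : b < p)
    (hb' : b' < p) (hbb : b ≠ b') :
    (∑ x ∈ Ico p (p + p ^ 2), if x - b ∈ S p j ∧ x - b' ∈ S p j then 1 else 0) ≤ j ^ 2 + p := by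
  have key : ∀ c c' : ℕ, c < p → c' < p → c < c' →
      (∑ x ∈ Ico p (p + p ^ 2), if x - c ∈ S p j ∧ x - c' ∈ S p j then 1 else 0) ≤
        j ^ 2 + p := by
    intro c c' hc hc' hcc
    rw [← card_filter]
    have e : (Ico p (p + p ^ 2)).filter (fun x => x - c ∈ S p j ∧ x - c' ∈ S p j) =
        (Ico p (p + p ^ 2)).filter (fun x => (fun n => n ∈ S p j ∧ n + (c' - c) ∈ S p j)
          (x - c')) := by
      apply filter_congr
      intro x hx
      rw [mem_Ico] at hx
      have : x - c' + (c' - c) = x - c := by omega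
      simp only [this]
      exact and_comm
    have h9 := count_shift (Q := fun n => n ∈ S p j ∧ n + (c' - c) ∈ S p j)
      (periodic_pair (p := p) (by omega) j (c' - c)) p c' hc'.le
    rw [e]
    refine le_trans (le_of_eq ?_) (card_pair hp2 hj (d := c' - c) (by omega) (by omega))
    convert h9
  rcases Nat.lt_or_gt_of_ne hbb with h | h
  · exact key b b' hb hb' h
  · have := key b' b hb' hb h
    simp_rw [and_comm (a := _ - b' ∈ S p j)] at this
    exact this

open Classical in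
lemma sum_N_sq {p : ℕ} [Fact p.Prime] (hp2 : 2 < p) {j : ℕ} (hj : j ≤ p) {B : Finset ℕ}
    (hB : ∀ b ∈ B, b < p) :
    ∑ x ∈ Ico p (p + p ^ 2), N p j B x ^ 2 ≤
      B.card * (p * j) + B.card ^ 2 * (j ^ 2 + p) := by
  have : NeZero p := ⟨by omega⟩
  have h1 : ∀ x, N p j B x ^ 2 =
      ∑ b ∈ B, ∑ b' ∈ B, if x - b ∈ S p j ∧ x - b' ∈ S p j then 1 else 0 := by
    intro x
    unfold N
    rw [pow_two, card_filter, sum_mul_sum]
    refine sum_congr rfl (fun b _ => sum_congr rfl (fun b' _ => ?_))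
    by_cases h : x - b ∈ S p j <;> by_cases h' : x - b' ∈ S p j <;> simp [h, h']
  simp_rw [h1]
  rw [sum_comm]
  have h2 : ∀ b ∈ B, (∑ x ∈ Ico p (p + p ^ 2), ∑ b' ∈ B,
      if x - b ∈ S p j ∧ x - b' ∈ S p j then 1 else 0) ≤ p * j + B.card * (j ^ 2 + p) := by
    intro b hb
    rw [sum_comm]
    have h3 : ∀ b' ∈ B, (∑ x ∈ Ico p (p + p ^ 2),
        if x - b ∈ S p j ∧ x - b' ∈ S p j then 1 else 0) ≤
          (if b' = b then p * j else 0) + (j ^ 2 + p) := by
      intro b' hb'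
      by_cases hbb : b' = b
      · subst hbb
        simp only [and_self, if_true]
        rw [← card_filter, count_shift (Q := fun n => n ∈ S p j)
          (periodic_S (by omega) j) p b' (hB b' hb').le, card_S hj]
        omega
      · rw [if_neg hbb, zero_add]
        exact pair_le hp2 hj (hB b hb) (hB b' hb') (Ne.symm hbb)
    refine (sum_le_sum h3).trans ?_
    rw [sum_add_distrib, sum_ite_eq' B b, if_pos hb, sum_const, smul_eq_mul]
  refine (sum_le_sum h2).trans ?_
  rw [sum_const, smul_eq_mul]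
  apply le_of_eq
  ring

open Classical in
/-- the points of a period missed by all translates -/
noncomputable def miss (p j : ℕ) (B : Finset ℕ) : ℕ :=
  ((Ico p (p + p ^ 2)).filter (fun x => ∀ b ∈ B, x - b ∉ S p j)).card

open Classical in
lemma miss_bound {p : ℕ} [Fact p.Prime] (hp2 : 2 < p) {j : ℕ} (hj : j ≤ p) {B : Finset ℕ}
    (hB : ∀ b ∈ B, b < p) :
    miss p j B * (B.card * j) ^ 2 ≤ p ^ 3 * B.card * (j + B.card) := by
  have : NeZero p := ⟨by omega⟩
  set k := B.card with hk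
  have h1 : (∑ x ∈ Ico p (p + p ^ 2), ((p : ℤ) * N p j B x - k * j) ^ 2) ≤
      (p : ℤ) ^ 2 * (k * (p * j) + k ^ 2 * (j ^ 2 + p)) - 2 * p * (k * j) * (k * (p * j)) +
        (p : ℤ) ^ 2 * (k * j) ^ 2 := by
    have e : ∀ x, ((p : ℤ) * N p j B x - k * j) ^ 2 = (p : ℤ) ^ 2 * ((N p j B x : ℤ) ^ 2) -
        2 * p * (k * j) * (N p j B x : ℤ) + (k * j) ^ 2 := by
      intro x; ring
    simp_rw [e]
    rw [sum_add_distrib, sum_sub_distrib, ← mul_sum, ← mul_sum, sum_const, Nat.card_Ico]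
    have h2 := sum_N (B := B) hj hB
    have h3 := sum_N_sq hp2 hj hB
    rw [← hk] at h2 h3
    have h2' : (∑ x ∈ Ico p (p + p ^ 2), (N p j B x : ℤ)) = k * (p * j) := by exact_mod_cast h2
    have h3' : (∑ x ∈ Ico p (p + p ^ 2), (N p j B x : ℤ) ^ 2) ≤
        k * (p * j) + k ^ 2 * (j ^ 2 + p) := by exact_mod_cast h3
    rw [h2', Nat.add_sub_cancel_left, nsmul_eq_mul]
    push_cast
    have hpp : (0 : ℤ) ≤ (p : ℤ) ^ 2 := by positivity
    have := mul_le_mul_of_nonneg_left h3' hpp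
    linarith
  have h4 : ((miss p j B : ℕ) : ℤ) * (k * j) ^ 2 ≤
      ∑ x ∈ Ico p (p + p ^ 2), ((p : ℤ) * N p j B x - k * j) ^ 2 := by
    have h5 : (∑ x ∈ (Ico p (p + p ^ 2)).filter (fun x => ∀ b ∈ B, x - b ∉ S p j),
        ((p : ℤ) * N p j B x - k * j) ^ 2) ≤
        ∑ x ∈ Ico p (p + p ^ 2), ((p : ℤ) * N p j B x - k * j) ^ 2 :=
      sum_le_sum_of_subset_of_nonneg (filter_subset _ _) (fun _ _ _ => sq_nonneg _)
    refine le_trans (le_of_eq ?_) h5
    have h6 : ∀ x ∈ (Ico p (p + p ^ 2)).filter (fun x => ∀ b ∈ B, x - b ∉ S p j),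
        ((p : ℤ) * N p j B x - k * j) ^ 2 = (k * j) ^ 2 := by
      intro x hx
      rw [mem_filter] at hx
      have hN : N p j B x = 0 := by
        unfold N
        rw [card_eq_zero, filter_eq_empty_iff]
        exact fun b hb => hx.2 b hb
      rw [hN]
      push_cast
      ring
    rw [sum_congr rfl h6, sum_const, nsmul_eq_mul]
    rfl
  have h7 := h4.trans h1
  have h8 : (p : ℤ) ^ 2 * (k * (p * j) + k ^ 2 * (j ^ 2 + p)) - 2 * p * (k * j) * (k * (p * j)) +
        (p : ℤ) ^ 2 * (k * j) ^ 2 = p ^ 3 * k * (j + k) := by ring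
  rw [h8] at h7
  exact_mod_cast h7

open Classical in
/-- The quantitative form used for the stages. -/
theorem miss_stage {p m : ℕ} [Fact p.Prime] (hp2 : 2 < p) (hm : 1 ≤ m) (hpm : 4 * m ^ 3 ≤ p)
    {B : Finset ℕ} (hB : ∀ b ∈ B, b < p) (hk : B.card = m ^ 2) :
    m * miss p (p / m) B ≤ 3 * p ^ 2 := by
  set j := p / m with hj
  have hjp : j ≤ p := Nat.div_le_self _ _
  have h := miss_bound hp2 hjp hB
  rw [hk] at h
  have hmm : m ≤ m ^ 3 := by
    calc m = m ^ 1 := (pow_one m).symm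
      _ ≤ m ^ 3 := Nat.pow_le_pow_right hm (by norm_num)
  have hj2 : p ≤ 2 * m * j := by
    have h1 : p < m * j + m := by
      have h2 := Nat.div_add_mod p m
      have h3 := Nat.mod_lt p (show 0 < m by omega)
      rw [← hj] at h2
      omega
    have : 2 * m * j = 2 * (m * j) := by ring
    omega
  have hj0 : 0 < j := Nat.pos_of_ne_zero (by rintro h0; rw [h0] at hj2; omega)
  -- the two comparisons
  have c1 : m * p ≤ 2 * m ^ 2 * j := by nlinarith
  have c2 : m * p ≤ j ^ 2 := by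
    have h1 : p * p ≤ (2 * m * j) * (2 * m * j) := Nat.mul_le_mul hj2 hj2
    have h2 : 4 * m ^ 3 * p ≤ p * p := Nat.mul_le_mul_right p hpm
    have h3 : 4 * m ^ 2 * (m * p) ≤ 4 * m ^ 2 * j ^ 2 := by nlinarith
    exact Nat.le_of_mul_le_mul_left h3 (by positivity)
  have hpos : 0 < m ^ 2 * (m ^ 2 * j ^ 2) := by positivity
  refine Nat.le_of_mul_le_mul_left ?_ hpos
  calc m ^ 2 * (m ^ 2 * j ^ 2) * (m * miss p j B)
      = m * (miss p j B * (m ^ 2 * j) ^ 2) := by ring
    _ ≤ m * (p ^ 3 * m ^ 2 * (j + m ^ 2)) := Nat.mul_le_mul_left _ h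
    _ = p ^ 2 * m ^ 2 * (j * (m * p)) + p ^ 2 * m ^ 4 * (m * p) := by ring
    _ ≤ p ^ 2 * m ^ 2 * (j * (2 * m ^ 2 * j)) + p ^ 2 * m ^ 4 * j ^ 2 := by
        gcongr
    _ = m ^ 2 * (m ^ 2 * j ^ 2) * (3 * p ^ 2) := by ring

end Pool.Agent.Y384.SM.Cov
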