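import Pool.Agent.Y384.SM.Cov

/-! # A set of density zero whose sum with every not too thin set has density one -/

set_option autoImplicit false

namespace Pool.Agent.Y384.SM.Glob

open Finset Filter Topology Pool.Agent.Y384.SM.Par Pool.Agent.Y384.SM.Cov

/-! ### counting periodic predicates in intervals -/

open Classical in
lemma count_le {Q : ℕ → Prop} {a : ℕ} (ha : 0 < a) (hQ : Function.Periodic Q a) (s t : ℕ) :
    ((Ico s t).filter Q).card ≤ ((t - s) / a + 1) * ((range a).filter Q).card := by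
  have h1 : ∀ K : ℕ, ((Ico s (s + K * a)).filter Q).card = K * ((range a).filter Q).card := by
    intro K
    induction K with
    | zero => simp
    | succ K ih =>
      have e : Ico s (s + (K + 1) * a) = Ico s (s + K * a) ∪ Ico (s + K * a) (s + K * a + a) := by
        rw [Ico_union_Ico_eq_Ico (by omega) (by omega)]
        congr 1
        ring
      rw [e, filter_union, card_union_of_disjoint, ih,
        Nat.filter_Ico_card_eq_of_periodic _ _ _ hQ, Nat.count_eq_card_filter_range]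
      · ring
      · apply disjoint_filter_filter
        exact Ico_disjoint_Ico_consecutive _ _ _
  rw [← h1]
  apply card_le_card
  apply filter_subset_filter
  apply Ico_subset_Ico le_rfl
  have h2 := Nat.div_add_mod (t - s) a
  have h3 := Nat.mod_lt (t - s) ha
  have e : ((t - s) / a + 1) * a = a * ((t - s) / a) + a := by ring
  omega

open Classical in
lemma count_mul_le {Q : ℕ → Prop} {a : ℕ} (ha : 0 < a) (hQ : Function.Periodic Q a) {m C : ℕ}
    (hm : m * ((range a).filter Q).card ≤ C * a) (s t : ℕ) :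
    m * ((Ico s t).filter Q).card ≤ C * ((t - s) + a) := by
  have h1 := count_le ha hQ s t
  calc m * ((Ico s t).filter Q).card
      ≤ m * (((t - s) / a + 1) * ((range a).filter Q).card) := Nat.mul_le_mul_left _ h1
    _ = ((t - s) / a + 1) * (m * ((range a).filter Q).card) := by ring
    _ ≤ ((t - s) / a + 1) * (C * a) := Nat.mul_le_mul_left _ hm
    _ = C * (a * ((t - s) / a) + a) := by ring
    _ ≤ C * ((t - s) + a) := by
        apply Nat.mul_le_mul_left
        have := Nat.div_add_mod (t - s) a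
        omega

open Classical in
lemma S_interval {p m : ℕ} (hp : 0 < p) (s t : ℕ) :
    m * ((Ico s t).filter (· ∈ S p (p / m))).card ≤ (t - s) + p ^ 2 := by
  have : NeZero p := ⟨hp.ne'⟩
  have h := count_mul_le (Q := fun n => n ∈ S p (p / m)) (a := p ^ 2) (by positivity)
    (periodic_S hp (p / m)) (m := m) (C := 1) (by
      have h1 := card_S (p := p) (j := p / m) (Nat.div_le_self _ _)
      rw [h1]
      have h2 : m * (p / m) ≤ p := Nat.mul_div_le p m
      calc m * (p * (p / m)) = p * (m * (p / m)) := by ring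
        _ ≤ p * p := Nat.mul_le_mul_left _ h2
        _ = 1 * p ^ 2 := by ring) s t
  simpa using h

open Classical in
lemma miss_interval {p m : ℕ} [Fact p.Prime] (hp2 : 2 < p) (hm : 1 ≤ m) (hpm : 4 * m ^ 3 ≤ p)
    {B : Finset ℕ} (hB : ∀ b ∈ B, b < p) (hk : B.card = m ^ 2) {s t : ℕ} (hs : p ≤ s) :
    m * ((Ico s t).filter (fun x => ∀ b ∈ B, x - b ∉ S p (p / m))).card ≤
      3 * ((t - s) + p ^ 2) := by
  have hp : 0 < p := by omega
  set Q : ℕ → Prop := fun x => ∀ b ∈ B, x + p - b ∉ S p (p / m) with hQ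
  have hper : Function.Periodic Q (p ^ 2) := by
    intro x
    apply propext
    constructor
    · intro h b hb
      have h1 := h b hb
      have h2 := hB b hb
      have e : x + p ^ 2 + p - b = (x + p - b) + p ^ 2 := by omega
      rw [e, S_periodic hp] at h1
      exact h1
    · intro h b hb
      have h1 := h b hb
      have h2 := hB b hb
      have e : x + p ^ 2 + p - b = (x + p - b) + p ^ 2 := by omega
      rw [e, S_periodic hp]
      exact h1
  have hc : ((range (p ^ 2)).filter Q).card = miss p (p / m) B := by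
    unfold miss
    refine card_nbij' (fun x => x + p) (fun x => x - p) ?_ ?_ ?_ ?_
    · intro x hx
      simp only [coe_filter, mem_range, mem_Ico, Set.mem_ofPred_eq] at hx ⊢
      exact ⟨⟨by omega, by omega⟩, hx.2⟩
    · intro x hx
      simp only [coe_filter, mem_range, mem_Ico, Set.mem_ofPred_eq] at hx ⊢
      refine ⟨by omega, ?_⟩
      intro b hb
      have e : x - p + p = x := Nat.sub_add_cancel hx.1.1
      rw [e]
      exact hx.2 b hb
    · intro x hx
      simp only [Nat.add_sub_cancel]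
    · intro x hx
      simp only [coe_filter, mem_Ico, Set.mem_ofPred_eq] at hx
      exact Nat.sub_add_cancel hx.1.1
  have h := count_mul_le (Q := Q) (a := p ^ 2) (by positivity) hper (m := m) (C := 3)
    (by
      refine le_trans (le_of_eq ?_) (miss_stage hp2 hm hpm hB hk)
      rw [← hc]
      congr!) (s - p) (t - p)
  have hc2 : ((Ico s t).filter (fun x => ∀ b ∈ B, x - b ∉ S p (p / m))).card ≤
      ((Ico (s - p) (t - p)).filter Q).card := by
    refine card_le_card_of_injOn (fun x => x - p) ?_ ?_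
    · intro x hx
      simp only [coe_filter, mem_Ico, Set.mem_ofPred_eq] at hx ⊢
      refine ⟨⟨by omega, by omega⟩, ?_⟩
      intro b hb
      have e : x - p + p = x := Nat.sub_add_cancel (by omega)
      rw [e]
      exact hx.2 b hb
    · intro x hx y hy hxy
      simp only [coe_filter, mem_Ico, Set.mem_ofPred_eq] at hx hy hxy
      omega
  calc m * ((Ico s t).filter (fun x => ∀ b ∈ B, x - b ∉ S p (p / m))).card
      ≤ m * ((Ico (s - p) (t - p)).filter Q).card := Nat.mul_le_mul_left _ hc2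
    _ ≤ 3 * ((t - p - (s - p)) + p ^ 2) := by convert h
    _ ≤ 3 * ((t - s) + p ^ 2) := by
        have : t - p - (s - p) ≤ t - s := by omega
        omega

/-! ### the thresholds -/

/-- the thresholds -/
def T (P : ℕ → ℕ) : ℕ → ℕ
  | 0 => 2
  | m + 1 => (m + 2) * T P m + (m + 1) * (P (m + 1)) ^ 2 + 1

lemma T_ge_two (P : ℕ → ℕ) (m : ℕ) : 2 ≤ T P m := by
  induction m with
  | zero => simp [T]
  | succ m ih =>
    simp only [T]
    nlinarith [Nat.zero_le ((m + 1) * (P (m + 1)) ^ 2)]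

lemma T_period (P : ℕ → ℕ) (m : ℕ) : (m + 1) * (P (m + 1)) ^ 2 ≤ T P (m + 1) := by
  simp only [T]
  have := Nat.zero_le ((m + 2) * T P m)
  omega

lemma T_grow (P : ℕ → ℕ) (m : ℕ) : (m + 2) * T P m < T P (m + 1) := by
  simp only [T]
  have := Nat.zero_le ((m + 1) * (P (m + 1)) ^ 2)
  omega

lemma T_lt (P : ℕ → ℕ) (m : ℕ) : T P m < T P (m + 1) := by
  have := T_grow P m
  nlinarith [T_ge_two P m]

lemma T_strictMono (P : ℕ → ℕ) : StrictMono (T P) := strictMono_nat_of_lt_succ (T_lt P)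

lemma T_unique (P : ℕ → ℕ) {a b x : ℕ} (ha : T P a ≤ x) (ha' : x < T P (a + 1))
    (hb : T P b ≤ x) (hb' : x < T P (b + 1)) : a = b := by
  rcases lt_trichotomy a b with h | h | h
  · have := (T_strictMono P).monotone (show a + 1 ≤ b from h)
    omega
  · exact h
  · have := (T_strictMono P).monotone (show b + 1 ≤ a from h)
    omega

/-- the set -/
def A (P : ℕ → ℕ) : Set ℕ :=
  {0} ∪ {n | ∃ m, 1 ≤ m ∧ T P m ≤ n ∧ n < T P (m + 1) ∧ n ∈ S (P m) (P m / m)}

/-- admissible choice of primes -/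
structure Adm (P : ℕ → ℕ) : Prop where
  prime : ∀ m, (P m).Prime
  two_lt : ∀ m, 2 < P m
  big : ∀ m, 4 * m ^ 3 ≤ P m

lemma stage_period {P : ℕ → ℕ} (hP : Adm P) (m : ℕ) (hm : 1 ≤ m) :
    m * (P m) ^ 2 ≤ T P m ∧ (P m) ^ 2 ≤ T P m ∧ m * P m ≤ T P m ∧ P m ≤ T P m := by
  obtain ⟨k, rfl⟩ : ∃ k, m = k + 1 := ⟨m - 1, by omega⟩
  have h := T_period P k
  have h1 := hP.two_lt (k + 1)
  have h2 : P (k + 1) ≤ (P (k + 1)) ^ 2 := by nlinarith
  have h3 : (P (k + 1)) ^ 2 ≤ (k + 1) * (P (k + 1)) ^ 2 := Nat.le_mul_of_pos_left _ (by omega)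
  have h4 : (k + 1) * P (k + 1) ≤ (k + 1) * (P (k + 1)) ^ 2 := Nat.mul_le_mul_left _ h2
  omega

open Classical in
lemma A_count {P : ℕ → ℕ} (hP : Adm P) {m n : ℕ} (hm : 1 ≤ m) (h1 : T P (m + 1) ≤ n)
    (h2 : n < T P (m + 2)) : m * ((Icc 1 n).filter (· ∈ A P)).card ≤ 18 * n := by
  have hsub : (Icc 1 n).filter (· ∈ A P) ⊆ (range (T P m) ∪
      (Ico (T P m) (T P (m + 1))).filter (· ∈ S (P m) (P m / m))) ∪
      (Ico (T P (m + 1)) (n + 1)).filter (· ∈ S (P (m + 1)) (P (m + 1) / (m + 1))) := by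
    intro x hx
    rw [mem_filter, mem_Icc] at hx
    obtain ⟨⟨hx1, hxn⟩, hxA⟩ := hx
    rw [mem_union, mem_union, mem_range, mem_filter, mem_Ico, mem_filter, mem_Ico]
    rcases hxA with h0 | ⟨a, ha, ha1, ha2, ha3⟩
    · have : x = 0 := h0
      omega
    · rcases lt_or_ge x (T P m) with hlt | hge
      · exact Or.inl (Or.inl hlt)
      · rcases lt_or_ge x (T P (m + 1)) with hlt' | hge'
        · have : a = m := T_unique P ha1 ha2 hge hlt'
          subst this
          exact Or.inl (Or.inr ⟨⟨hge, hlt'⟩, ha3⟩)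
        · have h2' : x < T P (m + 1 + 1) := lt_of_le_of_lt hxn h2
          have : a = m + 1 := T_unique P ha1 ha2 hge' h2'
          subst this
          exact Or.inr ⟨⟨hge', by omega⟩, ha3⟩
  have hc := (card_le_card hsub).trans ((card_union_le _ _).trans
    (Nat.add_le_add_right (card_union_le _ _) _))
  rw [card_range] at hc
  have e1 := S_interval (p := P m) (m := m) (by have := hP.two_lt m; omega) (T P m) (T P (m + 1))
  have e2 := S_interval (p := P (m + 1)) (m := m + 1) (by have := hP.two_lt (m + 1); omega)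
    (T P (m + 1)) (n + 1)
  obtain ⟨f1, f2, f3, f4⟩ := stage_period hP m hm
  obtain ⟨g1, g2, g3, g4⟩ := stage_period hP (m + 1) (by omega)
  have k1 := T_grow P m
  have k2 := T_lt P m
  have k3 := T_ge_two P m
  have e2' : m * ((Ico (T P (m + 1)) (n + 1)).filter
      (· ∈ S (P (m + 1)) (P (m + 1) / (m + 1)))).card ≤ n + 1 - T P (m + 1) + P (m + 1) ^ 2 :=
    (Nat.mul_le_mul_right _ (by omega)).trans e2
  have k4 : m * T P m ≤ (m + 2) * T P m := Nat.mul_le_mul_right _ (by omega)
  calc m * ((Icc 1 n).filter (· ∈ A P)).card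
      ≤ m * (T P m + ((Ico (T P m) (T P (m + 1))).filter (· ∈ S (P m) (P m / m))).card +
        ((Ico (T P (m + 1)) (n + 1)).filter
          (· ∈ S (P (m + 1)) (P (m + 1) / (m + 1)))).card) := Nat.mul_le_mul_left _ hc
    _ = m * T P m + m * ((Ico (T P m) (T P (m + 1))).filter (· ∈ S (P m) (P m / m))).card +
        m * ((Ico (T P (m + 1)) (n + 1)).filter
          (· ∈ S (P (m + 1)) (P (m + 1) / (m + 1)))).card := by ring
    _ ≤ 18 * n := by omega

/-- the pieces of `B` used at the stages -/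
structure Pieces (P : ℕ → ℕ) (B : Set ℕ) (m₀ : ℕ) (D : ℕ → Finset ℕ) : Prop where
  sub : ∀ m, m₀ ≤ m → ∀ b ∈ D m, b ∈ B ∧ b < P m
  card : ∀ m, m₀ ≤ m → (D m).card = m ^ 2

open scoped Pointwise

open Classical in
lemma miss_count {P : ℕ → ℕ} (hP : Adm P) {B : Set ℕ} {m₀ : ℕ} {D : ℕ → Finset ℕ}
    (hD : Pieces P B m₀ D) {m n : ℕ} (hm : 1 ≤ m) (hm0 : m₀ ≤ m) (h1 : T P (m + 1) ≤ n)
    (h2 : n < T P (m + 2)) : m * ((Icc 1 n).filter (· ∉ A P + B)).card ≤ 18 * n := by
  have hin : ∀ a, 1 ≤ a → m₀ ≤ a → ∀ x, T P a + P a ≤ x → x < T P (a + 1) → x ∉ A P + B →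
      ∀ b ∈ D a, x - b ∉ S (P a) (P a / a) := by
    intro a ha ha0 x hx hx' hxn b hb hS
    obtain ⟨hbB, hbP⟩ := hD.sub a ha0 b hb
    apply hxn
    rw [Set.mem_add]
    refine ⟨x - b, Or.inr ⟨a, ha, by omega, by omega, hS⟩, b, hbB, by omega⟩
  have hsub : (Icc 1 n).filter (· ∉ A P + B) ⊆ ((range (T P m + P m) ∪
      (Ico (T P m + P m) (T P (m + 1))).filter
        (fun x => ∀ b ∈ D m, x - b ∉ S (P m) (P m / m))) ∪
      Ico (T P (m + 1)) (T P (m + 1) + P (m + 1))) ∪
      (Ico (T P (m + 1) + P (m + 1)) (n + 1)).filter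
        (fun x => ∀ b ∈ D (m + 1), x - b ∉ S (P (m + 1)) (P (m + 1) / (m + 1))) := by
    intro x hx
    rw [mem_filter, mem_Icc] at hx
    obtain ⟨⟨hx1, hxn⟩, hxA⟩ := hx
    rw [mem_union, mem_union, mem_union, mem_range, mem_filter, mem_Ico, mem_Ico, mem_filter,
      mem_Ico]
    rcases lt_or_ge x (T P m + P m) with c1 | c1
    · exact Or.inl (Or.inl (Or.inl c1))
    rcases lt_or_ge x (T P (m + 1)) with c2 | c2
    · exact Or.inl (Or.inl (Or.inr ⟨⟨c1, c2⟩, hin m hm hm0 x c1 c2 hxA⟩))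
    rcases lt_or_ge x (T P (m + 1) + P (m + 1)) with c3 | c3
    · exact Or.inl (Or.inr ⟨c2, c3⟩)
    · have h2' : x < T P (m + 1 + 1) := lt_of_le_of_lt hxn h2
      exact Or.inr ⟨⟨c3, by omega⟩, hin (m + 1) (by omega) (by omega) x c3 h2' hxA⟩
  have hc := (card_le_card hsub).trans ((card_union_le _ _).trans (Nat.add_le_add_right
    ((card_union_le _ _).trans (Nat.add_le_add_right (card_union_le _ _) _)) _))
  rw [card_range, Nat.card_Ico, Nat.add_sub_cancel_left] at hc
  have : Fact (P m).Prime := ⟨hP.prime m⟩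
  have : Fact (P (m + 1)).Prime := ⟨hP.prime (m + 1)⟩
  obtain ⟨f1, f2, f3, f4⟩ := stage_period hP m hm
  obtain ⟨g1, g2, g3, g4⟩ := stage_period hP (m + 1) (by omega)
  have e1 := miss_interval (p := P m) (m := m) (hP.two_lt m) hm (hP.big m)
    (B := D m) (fun b hb => (hD.sub m hm0 b hb).2) (hD.card m hm0)
    (s := T P m + P m) (t := T P (m + 1)) (by omega)
  have e2 := miss_interval (p := P (m + 1)) (m := m + 1) (hP.two_lt _) (by omega) (hP.big _)
    (B := D (m + 1)) (fun b hb => (hD.sub _ (by omega) b hb).2) (hD.card _ (by omega))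
    (s := T P (m + 1) + P (m + 1)) (t := n + 1) (by omega)
  have k1 := T_grow P m
  have k2 := T_lt P m
  have k3 := T_ge_two P m
  set X := ((Ico (T P m + P m) (T P (m + 1))).filter
        (fun x => ∀ b ∈ D m, x - b ∉ S (P m) (P m / m))).card with hX
  set Y := ((Ico (T P (m + 1) + P (m + 1)) (n + 1)).filter
        (fun x => ∀ b ∈ D (m + 1), x - b ∉ S (P (m + 1)) (P (m + 1) / (m + 1)))).card with hY
  have e2' : m * Y ≤ 3 * (n + 1 - (T P (m + 1) + P (m + 1)) + P (m + 1) ^ 2) :=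
    (Nat.mul_le_mul_right _ (by omega)).trans e2
  have k4 : m * T P m ≤ (m + 2) * T P m := Nat.mul_le_mul_right _ (by omega)
  have k5 : m * P (m + 1) ≤ (m + 1) * P (m + 1) := Nat.mul_le_mul_right _ (by omega)
  calc m * ((Icc 1 n).filter (· ∉ A P + B)).card
      ≤ m * (T P m + P m + X + P (m + 1) + Y) := Nat.mul_le_mul_left _ hc
    _ = m * T P m + m * P m + m * X + m * P (m + 1) + m * Y := by ring
    _ ≤ 18 * n := by omega

lemma exists_stage (P : ℕ → ℕ) {K n : ℕ} (h : T P (K + 1) ≤ n) :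
    ∃ m, K ≤ m ∧ T P (m + 1) ≤ n ∧ n < T P (m + 2) := by
  have hub : ∃ m, n < T P m := ⟨n + 1, lt_of_lt_of_le (Nat.lt_succ_self n)
    ((T_strictMono P).le_apply)⟩
  classical
  have h1 := Nat.find_spec hub
  set m := Nat.find hub with hm
  have h2 : K + 1 < m := by
    by_contra hle
    push Not at hle
    have := (T_strictMono P).monotone hle
    omega
  have h3 : ¬ n < T P (m - 1) := Nat.find_min hub (by omega)
  refine ⟨m - 2, by omega, ?_, ?_⟩
  · have e : m - 2 + 1 = m - 1 := by omega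
    rw [e]
    omega
  · have e : m - 2 + 2 = m := by omega
    rw [e]
    exact h1

lemma tendsto_of_stages (P : ℕ → ℕ) (f : ℕ → ℕ) (m₁ : ℕ)
    (hf : ∀ m n, m₁ ≤ m → T P (m + 1) ≤ n → n < T P (m + 2) → m * f n ≤ 18 * n) :
    Tendsto (fun n : ℕ => (f n : ℝ) / n) atTop (𝓝 0) := by
  rw [Metric.tendsto_atTop]
  intro ε hε
  obtain ⟨K, hK⟩ := exists_nat_gt (18 / ε)
  refine ⟨T P (max K m₁ + 1), fun n hn => ?_⟩
  obtain ⟨m, hm1, hm2, hm3⟩ := exists_stage P hn
  have h1 := hf m n (le_trans (le_max_right _ _) hm1) hm2 hm3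
  have h2 : (K : ℝ) ≤ m := by exact_mod_cast le_trans (le_max_left _ _) hm1
  have hKpos : (0 : ℝ) < K := lt_trans (by positivity) hK
  have hmpos : (0 : ℝ) < m := lt_of_lt_of_le hKpos h2
  have hnpos : (0 : ℝ) < n := by
    have := T_ge_two P (max K m₁ + 1)
    have : 0 < n := by omega
    exact_mod_cast this
  have h3 : (m : ℝ) * f n ≤ 18 * n := by exact_mod_cast h1
  rw [Real.dist_eq, sub_zero, abs_of_nonneg (by positivity)]
  have h4 : (f n : ℝ) / n ≤ 18 / m := by
    rw [div_le_div_iff₀ hnpos hmpos]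
    linarith
  have h5 : (18 : ℝ) / m ≤ 18 / K := div_le_div_of_nonneg_left (by norm_num) hKpos h2
  have h6 : (18 : ℝ) / K < ε := by
    rw [div_lt_iff₀ hKpos]
    rw [div_lt_iff₀ hε] at hK
    linarith
  linarith

end Pool.Agent.Y384.SM.Glob
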