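import Mathlib

/-! # Parabola sets: pairwise uniform sets of integers of small density

`S p j` is the set of all `n` for which `⌊n / p⌋ - n ^ 2` is congruent modulo `p` to one of
`0, …, j - 1`.  It has period `p ^ 2`, has `p * j` elements in a period, and for `0 < d < p` there
are at most `j ^ 2 + p` elements `n` in a period for which `n` and `n + d` are both in `S p j`.
Hence it meets almost all translates of any set of `k` integers in an interval of length `p`. -/

set_option autoImplicit false

namespace Pool.Agent.Y384.SM.Par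

open Finset

/-- the parabola set -/
def S (p j : ℕ) : Set ℕ := {n | (((n / p : ℕ) : ZMod p) - (n : ZMod p) ^ 2).val < j}

variable {p : ℕ}

lemma S_periodic (hp : 0 < p) (j n : ℕ) : n + p ^ 2 ∈ S p j ↔ n ∈ S p j := by
  have h1 : (n + p ^ 2) / p = n / p + p := by
    rw [pow_two, Nat.add_mul_div_right _ _ hp]
  have h2 : ((n + p ^ 2 : ℕ) : ZMod p) = n := by
    push_cast
    simp
  unfold S
  simp only [Set.mem_ofPred_eq]
  rw [h1, h2]
  push_cast
  simp

/-- the number of `z` with `z` and `z + w` both among the first `j` residues -/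
noncomputable def R (p j : ℕ) [NeZero p] (w : ZMod p) : ℕ :=
  ((univ : Finset (ZMod p)).filter (fun z => z.val < j ∧ (z + w).val < j)).card

lemma card_val_lt [NeZero p] {j : ℕ} (hj : j ≤ p) :
    ((univ : Finset (ZMod p)).filter (fun z => z.val < j)).card = j := by
  have h : ((univ : Finset (ZMod p)).filter (fun z => z.val < j)).image ZMod.val = range j := by
    ext x
    simp only [mem_image, mem_filter, mem_univ, true_and, mem_range]
    constructor
    · rintro ⟨z, hz, rfl⟩
      exact hz
    · intro hx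
      refine ⟨(x : ZMod p), ?_, ?_⟩
      · rw [ZMod.val_natCast_of_lt (by omega)]; exact hx
      · rw [ZMod.val_natCast_of_lt (by omega)]
  rw [← card_image_of_injective _ (ZMod.val_injective p), h, card_range]

lemma sum_R [NeZero p] {j : ℕ} (hj : j ≤ p) : ∑ w : ZMod p, R p j w = j * j := by
  classical
  have h1 : ∀ w : ZMod p, R p j w =
      ∑ z : ZMod p, if z.val < j ∧ (z + w).val < j then 1 else 0 := by
    intro w
    unfold R
    rw [card_filter]
  simp_rw [h1]
  rw [sum_comm]
  have h2 : ∀ z : ZMod p, (∑ w : ZMod p, if z.val < j ∧ (z + w).val < j then 1 else 0) =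
      if z.val < j then j else 0 := by
    intro z
    by_cases hz : z.val < j
    · simp only [hz, true_and, if_true]
      have e : (∑ w : ZMod p, if (z + w).val < j then 1 else 0) =
          ∑ w : ZMod p, if w.val < j then 1 else 0 :=
        Fintype.sum_equiv (Equiv.addLeft z) _ _ (fun w => rfl)
      rw [e, ← card_filter, card_val_lt hj]
    · simp [hz]
  simp_rw [h2]
  rw [← sum_filter, sum_const, card_val_lt hj, smul_eq_mul]

lemma R_succ [NeZero p] {j : ℕ} (w : ZMod p) : R p j (w + 1) ≤ R p j w + 1 := by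
  classical
  unfold R
  have hinj : Function.Injective (fun z : ZMod p => z + 1) := add_left_injective 1
  rw [← card_image_of_injective _ hinj]
  have hsub : ((univ : Finset (ZMod p)).filter
      (fun z => z.val < j ∧ (z + (w + 1)).val < j)).image (fun z => z + 1) ⊆
      insert (j : ZMod p) ((univ : Finset (ZMod p)).filter
        (fun z => z.val < j ∧ (z + w).val < j)) := by
    intro y hy
    rw [mem_image] at hy
    obtain ⟨z, hz, rfl⟩ := hy
    rw [mem_filter] at hz
    obtain ⟨-, hz1, hz2⟩ := hz
    rw [mem_insert, mem_filter]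
    by_cases hv : z.val + 1 < j
    · right
      refine ⟨mem_univ _, ?_, ?_⟩
      · have : (z + 1).val ≤ z.val + 1 := by
          have h1 := ZMod.val_add_le z 1
          have h2 : (1 : ZMod p).val ≤ 1 := by
            rcases Nat.lt_or_ge 1 p with h | h
            · rw [← Nat.cast_one, ZMod.val_natCast_of_lt h]
            · have hp1 : p = 1 := by
                have := NeZero.pos p
                omega
              subst hp1
              have := ZMod.val_lt (1 : ZMod 1)
              omega
          omega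
        omega
      · have e : z + 1 + w = z + (w + 1) := by ring
        rw [e]
        exact hz2
    · left
      have hzj : z.val + 1 = j := by omega
      have : ((z.val + 1 : ℕ) : ZMod p) = (j : ZMod p) := by rw [hzj]
      rw [← this]
      push_cast
      rw [ZMod.natCast_zmod_val]
  refine (card_le_card hsub).trans ?_
  exact card_insert_le _ _

lemma sum_blocks (f : ℕ → ℕ) (p t : ℕ) :
    ∑ n ∈ range (p * t), f n = ∑ y ∈ range t, ∑ x ∈ range p, f (p * y + x) := by
  induction t with
  | zero => simp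
  | succ t ih => rw [Nat.mul_succ, sum_range_add, ih, sum_range_succ]

lemma sum_zmod [NeZero p] (F : ZMod p → ℕ) :
    ∑ y ∈ range p, F ((y : ℕ) : ZMod p) = ∑ z : ZMod p, F z := by
  refine sum_nbij' (fun y => ((y : ℕ) : ZMod p)) ZMod.val ?_ ?_ ?_ ?_ ?_
  · intro a _; exact mem_univ _
  · intro a _; exact mem_range.2 (ZMod.val_lt a)
  · intro a ha; exact ZMod.val_natCast_of_lt (mem_range.1 ha)
  · intro a _; exact ZMod.natCast_zmod_val a
  · intro a _; rfl

lemma mem_S_iff (hp : 0 < p) (j x y : ℕ) (hx : x < p) :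
    p * y + x ∈ S p j ↔ (((y : ℕ) : ZMod p) - ((x : ℕ) : ZMod p) ^ 2).val < j := by
  unfold S
  simp only [Set.mem_ofPred_eq]
  rw [Nat.mul_add_div hp, Nat.div_eq_of_lt hx]
  push_cast
  simp

open Classical in
lemma card_S [NeZero p] {j : ℕ} (hj : j ≤ p) :
    ((range (p ^ 2)).filter (· ∈ S p j)).card = p * j := by
  have hp : 0 < p := NeZero.pos p
  rw [card_filter, pow_two, sum_blocks, sum_comm]
  have h : ∀ x ∈ range p, (∑ y ∈ range p, if p * y + x ∈ S p j then 1 else 0) = j := by
    intro x hx
    rw [mem_range] at hx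
    have e : ∀ y : ℕ, (if p * y + x ∈ S p j then 1 else 0 : ℕ) =
        (fun z : ZMod p => if (z - ((x : ℕ) : ZMod p) ^ 2).val < j then 1 else 0)
          ((y : ℕ) : ZMod p) := by
      intro y
      simp only [mem_S_iff hp j x y hx]
    simp_rw [e]
    rw [sum_zmod (fun z : ZMod p => if (z - ((x : ℕ) : ZMod p) ^ 2).val < j then 1 else 0)]
    have e2 : (∑ z : ZMod p, if (z - ((x : ℕ) : ZMod p) ^ 2).val < j then 1 else 0) =
        ∑ z : ZMod p, if z.val < j then 1 else 0 :=
      Fintype.sum_equiv (Equiv.subRight (((x : ℕ) : ZMod p) ^ 2)) _ _ (fun w => rfl)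
    rw [e2, ← card_filter, card_val_lt hj]
  rw [sum_congr rfl h, sum_const, card_range, smul_eq_mul]

open Classical in
lemma card_pair [hpp : Fact p.Prime] (hp2 : 2 < p) {j d : ℕ} (hj : j ≤ p) (hd : 0 < d)
    (hdp : d < p) :
    ((range (p ^ 2)).filter (fun n => n ∈ S p j ∧ n + d ∈ S p j)).card ≤ j ^ 2 + p := by
  have hp : 0 < p := by omega
  have : NeZero p := ⟨hp.ne'⟩
  rw [card_filter, pow_two, sum_blocks, sum_comm]
  have h : ∀ x ∈ range p,
      (∑ y ∈ range p, if p * y + x ∈ S p j ∧ p * y + x + d ∈ S p j then 1 else 0) ≤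
        R p j (-2 * (d : ZMod p) * ((x : ℕ) : ZMod p) - (d : ZMod p) ^ 2) + 1 := by
    intro x hx
    rw [mem_range] at hx
    set c : ℕ := (x + d) / p with hc
    set x' : ℕ := (x + d) % p with hx'
    have hxd : x + d = p * c + x' := (Nat.div_add_mod (x + d) p).symm
    have hx'p : x' < p := Nat.mod_lt _ hp
    have hcast : ((x' : ℕ) : ZMod p) = (x : ZMod p) + d := by
      have : ((x + d : ℕ) : ZMod p) = ((p * c + x' : ℕ) : ZMod p) := by rw [hxd]
      push_cast at this
      simp only [CharP.cast_eq_zero, zero_mul, zero_add] at this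
      exact this.symm
    have e : ∀ y : ℕ, (if p * y + x ∈ S p j ∧ p * y + x + d ∈ S p j then 1 else 0 : ℕ) =
        (fun z : ZMod p => if (z - ((x : ℕ) : ZMod p) ^ 2).val < j ∧
          (z + (c : ZMod p) - ((x : ZMod p) + d) ^ 2).val < j then 1 else 0)
          ((y : ℕ) : ZMod p) := by
      intro y
      have h1 : p * y + x + d = p * (y + c) + x' := by rw [add_assoc, hxd]; ring
      rw [h1]
      simp only [mem_S_iff hp j x y hx, mem_S_iff hp j x' (y + c) hx'p, hcast, Nat.cast_add]
    simp_rw [e]
    rw [sum_zmod (fun z : ZMod p => if (z - ((x : ℕ) : ZMod p) ^ 2).val < j ∧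
          (z + (c : ZMod p) - ((x : ZMod p) + d) ^ 2).val < j then 1 else 0)]
    have e2 : (∑ z : ZMod p, if (z - ((x : ℕ) : ZMod p) ^ 2).val < j ∧
          (z + (c : ZMod p) - ((x : ZMod p) + d) ^ 2).val < j then 1 else 0) =
        R p j ((-2 * (d : ZMod p) * ((x : ℕ) : ZMod p) - (d : ZMod p) ^ 2) + c) := by
      unfold R
      rw [card_filter]
      refine Fintype.sum_equiv (Equiv.subRight (((x : ℕ) : ZMod p) ^ 2)) _ _ (fun z => ?_)
      have e3 : (z - ((x : ℕ) : ZMod p) ^ 2 +
          (-2 * (d : ZMod p) * ((x : ℕ) : ZMod p) - (d : ZMod p) ^ 2 + c)) =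
          z + (c : ZMod p) - ((x : ZMod p) + d) ^ 2 := by ring
      simp only [Equiv.subRight_apply, e3]
    rw [e2]
    have hc1 : c ≤ 1 := by
      rw [hc]
      have : (x + d) / p < 2 := (Nat.div_lt_iff_lt_mul hp).2 (by omega)
      omega
    rcases Nat.le_one_iff_eq_zero_or_eq_one.1 hc1 with h0 | h0
    · rw [h0, Nat.cast_zero, add_zero]
      omega
    · rw [h0, Nat.cast_one]
      exact R_succ _
  refine (sum_le_sum h).trans ?_
  rw [sum_add_distrib, sum_const, card_range, smul_eq_mul, mul_one]
  rw [sum_zmod (fun x : ZMod p => R p j (-2 * (d : ZMod p) * x - (d : ZMod p) ^ 2))]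
  have hd0 : (d : ZMod p) ≠ 0 := by
    rw [Ne, ZMod.natCast_eq_zero_iff]
    exact Nat.not_dvd_of_pos_of_lt hd hdp
  have h20 : (2 : ZMod p) ≠ 0 := by
    have : ((2 : ℕ) : ZMod p) ≠ 0 := by
      rw [Ne, ZMod.natCast_eq_zero_iff]
      exact Nat.not_dvd_of_pos_of_lt (by norm_num) hp2
    exact_mod_cast this
  have ha : (-2 * (d : ZMod p)) ≠ 0 := mul_ne_zero (neg_ne_zero.2 h20) hd0
  have e4 : ∑ x : ZMod p, R p j (-2 * (d : ZMod p) * x - (d : ZMod p) ^ 2) =
      ∑ w : ZMod p, R p j w :=
    Fintype.sum_equiv ((Equiv.mulLeft₀ _ ha).trans (Equiv.subRight ((d : ZMod p) ^ 2))) _ _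
      (fun w => rfl)
  rw [e4, sum_R hj, pow_two]

end Pool.Agent.Y384.SM.Par
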