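import Mathlib

/-! # Paraboloid sets of integers: two different translates meet in few points -/

set_option autoImplicit false

namespace Pool.Agent.Y384.SM.Quad

open Finset
open scoped Pointwise

lemma digits_unique {M : ℕ} (hM : 0 < M) : ∀ {n : ℕ} (f g : Fin n → ℕ), (∀ i, f i < M) →
    (∀ i, g i < M) → ∑ i, f i * M ^ (i : ℕ) = ∑ i, g i * M ^ (i : ℕ) → f = g := by
  intro n
  induction n with
  | zero => intro f g _ _ _; funext i; exact i.elim0
  | succ n ih =>
    intro f g hf hg h
    rw [Fin.sum_univ_succ, Fin.sum_univ_succ] at h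
    simp only [Fin.val_zero, pow_zero, mul_one, Fin.val_succ] at h
    have e : ∀ f' : Fin (n + 1) → ℕ, ∑ i : Fin n, f' i.succ * M ^ ((i : ℕ) + 1) =
        M * ∑ i : Fin n, f' i.succ * M ^ (i : ℕ) := by
      intro f'
      rw [mul_sum]
      exact sum_congr rfl (fun i _ => by ring)
    rw [e f, e g] at h
    have h0 : f 0 = g 0 := by
      have h1 : (f 0 + M * ∑ i : Fin n, f i.succ * M ^ (i : ℕ)) % M = f 0 := by
        rw [Nat.add_mul_mod_self_left, Nat.mod_eq_of_lt (hf 0)]
      have h2 : (g 0 + M * ∑ i : Fin n, g i.succ * M ^ (i : ℕ)) % M = g 0 := by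
        rw [Nat.add_mul_mod_self_left, Nat.mod_eq_of_lt (hg 0)]
      rw [← h1, ← h2, h]
    have h3 : ∑ i : Fin n, f i.succ * M ^ (i : ℕ) = ∑ i : Fin n, g i.succ * M ^ (i : ℕ) := by
      rw [h0] at h
      exact Nat.eq_of_mul_eq_mul_left hM (Nat.add_left_cancel h)
    have h4 := ih (fun i => f i.succ) (fun i => g i.succ) (fun i => hf _) (fun i => hg _) h3
    funext i
    refine Fin.cases h0 (fun j => ?_) i
    exact congrFun h4 j

lemma digits_lt {M : ℕ} : ∀ {n : ℕ} (f : Fin n → ℕ), (∀ i, f i < M) →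
    ∑ i, f i * M ^ (i : ℕ) < M ^ n := by
  intro n
  induction n with
  | zero => intro f _; simp
  | succ n ih =>
    intro f hf
    rw [Fin.sum_univ_castSucc]
    simp only [Fin.val_castSucc, Fin.val_last]
    have h1 := ih (fun i => f i.castSucc) (fun i => hf _)
    have h2 : (f (Fin.last n) + 1) * M ^ n ≤ M * M ^ n :=
      Nat.mul_le_mul_right _ (hf (Fin.last n))
    have e : M ^ (n + 1) = M * M ^ n := by ring
    have e2 : (f (Fin.last n) + 1) * M ^ n = f (Fin.last n) * M ^ n + M ^ n := by ring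
    omega

variable {p k : ℕ}

/-- the digits of the point over `x` -/
def dig [NeZero p] (x : Fin (k + 1) → ZMod p) : Fin (k + 2) → ℕ :=
  Fin.cons (∑ i, x i ^ 2).val (fun i => (x i).val)

lemma dig_lt [NeZero p] (x : Fin (k + 1) → ZMod p) (i : Fin (k + 2)) : dig x i < p := by
  refine Fin.cases ?_ (fun j => ?_) i
  · exact ZMod.val_lt _
  · exact ZMod.val_lt _

/-- the point over `x` -/
def E [NeZero p] (x : Fin (k + 1) → ZMod p) : ℕ := ∑ i, dig x i * (2 * p) ^ (i : ℕ)

lemma E_lt [NeZero p] (x : Fin (k + 1) → ZMod p) : E x < p * (2 * p) ^ (k + 1) := by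
  have hp : 0 < p := NeZero.pos p
  unfold E
  rw [Fin.sum_univ_castSucc]
  simp only [Fin.val_castSucc, Fin.val_last]
  have h1 := digits_lt (M := 2 * p) (fun i => dig x i.castSucc)
    (fun i => by have := dig_lt x i.castSucc; omega)
  have h2 : (dig x (Fin.last (k + 1)) + 1) * (2 * p) ^ (k + 1) ≤ p * (2 * p) ^ (k + 1) :=
    Nat.mul_le_mul_right _ (dig_lt x _)
  have e2 : (dig x (Fin.last (k + 1)) + 1) * (2 * p) ^ (k + 1) =
    dig x (Fin.last (k + 1)) * (2 * p) ^ (k + 1) + (2 * p) ^ (k + 1) := by ring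
  omega

lemma E_key [NeZero p] {x x' z z' : Fin (k + 1) → ZMod p} (h : E x + E z' = E x' + E z) :
    (∀ i, x i + z' i = x' i + z i) ∧
      (∑ i, x i ^ 2) + (∑ i, z' i ^ 2) = (∑ i, x' i ^ 2) + ∑ i, z i ^ 2 := by
  have hp : 0 < p := NeZero.pos p
  have h1 : (fun i => dig x i + dig z' i) = (fun i => dig x' i + dig z i) := by
    apply digits_unique (M := 2 * p) (by omega)
    · intro i
      have := dig_lt x i
      have := dig_lt z' i
      omega
    · intro i
      have := dig_lt x' i
      have := dig_lt z i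
      omega
    · have e : ∀ a b : Fin (k + 1) → ZMod p, ∑ i, (dig a i + dig b i) * (2 * p) ^ (i : ℕ) =
          E a + E b := by
        intro a b
        unfold E
        rw [← sum_add_distrib]
        exact sum_congr rfl (fun i _ => by ring)
      rw [e, e]
      exact h
  constructor
  · intro i
    have h2 := congrFun h1 i.succ
    simp only [dig, Fin.cons_succ] at h2
    have h3 : (((x i).val + (z' i).val : ℕ) : ZMod p) = (((x' i).val + (z i).val : ℕ) : ZMod p) := by
      rw [h2]
    push_cast at h3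
    simpa only [ZMod.natCast_zmod_val] using h3
  · have h2 := congrFun h1 0
    simp only [dig, Fin.cons_zero] at h2
    have h3 : (((∑ i, x i ^ 2 : ZMod p).val + (∑ i, z' i ^ 2 : ZMod p).val : ℕ) : ZMod p) =
        (((∑ i, x' i ^ 2 : ZMod p).val + (∑ i, z i ^ 2 : ZMod p).val : ℕ) : ZMod p) := by
      rw [h2]
    rw [Nat.cast_add, Nat.cast_add] at h3
    simpa only [ZMod.natCast_zmod_val] using h3

lemma E_injective [NeZero p] : Function.Injective (E (p := p) (k := k)) := by
  intro x z h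
  have h1 := (E_key (x := x) (x' := z) (z := x) (z' := x) (by omega)).1
  funext i
  exact add_right_cancel (h1 i)

lemma hyperplane [Fact p.Prime] (e x₀ : Fin (k + 1) → ZMod p) (he : e ≠ 0)
    (X : Finset (Fin (k + 1) → ZMod p)) (hX : ∀ x ∈ X, ∑ i, (x i - x₀ i) * e i = 0) :
    X.card ≤ p ^ k := by
  obtain ⟨i₀, hi₀⟩ := Function.ne_iff.1 he
  have h : X.card ≤ (univ : Finset (Fin k → ZMod p)).card := by
    refine card_le_card_of_injOn (fun x => i₀.removeNth x) (fun _ _ => mem_coe.2 (mem_univ _)) ?_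
    intro x hx z hz hxz
    have h1 := hX x (mem_coe.1 hx)
    have h2 := hX z (mem_coe.1 hz)
    have h3 : ∀ j : Fin k, x (i₀.succAbove j) = z (i₀.succAbove j) := fun j => congrFun hxz j
    rw [Fin.sum_univ_succAbove _ i₀] at h1 h2
    have h4 : ∑ j : Fin k, (x (i₀.succAbove j) - x₀ (i₀.succAbove j)) * e (i₀.succAbove j) =
        ∑ j : Fin k, (z (i₀.succAbove j) - x₀ (i₀.succAbove j)) * e (i₀.succAbove j) :=
      sum_congr rfl (fun j _ => by rw [h3 j])
    rw [h4] at h1
    have h5 : (x i₀ - z i₀) * e i₀ = 0 := by linear_combination h1 - h2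
    have h6 : x i₀ = z i₀ := by
      rcases mul_eq_zero.1 h5 with h | h
      · exact sub_eq_zero.1 h
      · exact absurd h hi₀
    funext i
    rcases Fin.eq_self_or_eq_succAbove i₀ i with rfl | ⟨j, rfl⟩
    · exact h6
    · exact h3 j
  refine h.trans (le_of_eq ?_)
  rw [card_univ, Fintype.card_fun, ZMod.card, Fintype.card_fin]

/-- the paraboloid set -/
noncomputable def Q (p k : ℕ) [NeZero p] : Finset ℕ :=
  (univ : Finset (Fin (k + 1) → ZMod p)).image E

lemma card_Q [NeZero p] : (Q p k).card = p ^ (k + 1) := by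
  unfold Q
  rw [card_image_of_injective _ E_injective, card_univ, Fintype.card_fun, ZMod.card,
    Fintype.card_fin]

lemma Q_lt [NeZero p] {a : ℕ} (ha : a ∈ Q p k) : a < p * (2 * p) ^ (k + 1) := by
  unfold Q at ha
  rw [mem_image] at ha
  obtain ⟨x, -, rfl⟩ := ha
  exact E_lt x

lemma inter_card_le [Fact p.Prime] (hp2 : 2 < p) {y z : ℕ} (hyz : y ≠ z) :
    ((Q p k + {y}) ∩ (Q p k + {z})).card ≤ p ^ k := by
  classical
  set X : Finset (Fin (k + 1) → ZMod p) :=
    univ.filter (fun x => ∃ x' : Fin (k + 1) → ZMod p, E x + y = E x' + z) with hXdef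
  have h1 : (Q p k + {y}) ∩ (Q p k + {z}) ⊆ X.image (fun x => E x + y) := by
    intro u hu
    rw [mem_inter, mem_add, mem_add] at hu
    obtain ⟨⟨a, ha, y1, hy1, rfl⟩, ⟨b, hb, z1, hz1, hab⟩⟩ := hu
    rw [mem_singleton] at hy1 hz1
    subst hy1 hz1
    unfold Q at ha hb
    rw [mem_image] at ha hb
    obtain ⟨x, -, rfl⟩ := ha
    obtain ⟨x', -, rfl⟩ := hb
    rw [mem_image]
    exact ⟨x, mem_filter.2 ⟨mem_univ _, x', hab.symm⟩, rfl⟩
  refine (card_le_card h1).trans (card_image_le.trans ?_)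
  rcases X.eq_empty_or_nonempty with h0 | ⟨x₀, hx₀⟩
  · rw [h0, card_empty]
    exact Nat.zero_le _
  rw [hXdef, mem_filter] at hx₀
  obtain ⟨-, x₀', hx₀'⟩ := hx₀
  have hne : (fun i => x₀' i - x₀ i) ≠ (0 : Fin (k + 1) → ZMod p) := by
    intro h
    apply hyz
    have : x₀' = x₀ := by
      funext i
      exact sub_eq_zero.1 (congrFun h i)
    rw [this] at hx₀'
    omega
  apply hyperplane (fun i => x₀' i - x₀ i) x₀ hne X
  intro x hx
  rw [hXdef, mem_filter] at hx
  obtain ⟨-, x', hx'⟩ := hx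
  obtain ⟨k1, k2⟩ := E_key (x := x) (x' := x') (z := x₀) (z' := x₀') (by omega)
  have h20 : (2 : ZMod p) ≠ 0 := by
    have : ((2 : ℕ) : ZMod p) ≠ 0 := by
      rw [Ne, ZMod.natCast_eq_zero_iff]
      exact Nat.not_dvd_of_pos_of_lt (by norm_num) hp2
    exact_mod_cast this
  have h3 : 2 * ∑ i, (x i - x₀ i) * (x₀' i - x₀ i) = 0 := by
    have e : ∀ i, 2 * ((x i - x₀ i) * (x₀' i - x₀ i)) =
        (x' i ^ 2 + x₀ i ^ 2) - (x i ^ 2 + x₀' i ^ 2) := by
      intro i
      have : x' i = x i + x₀' i - x₀ i := by linear_combination -(k1 i)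
      rw [this]
      ring
    rw [mul_sum]
    simp_rw [e]
    rw [sum_sub_distrib, sum_add_distrib, sum_add_distrib, k2, sub_self]
  exact (mul_eq_zero.1 h3).resolve_left h20

lemma sumset_card {S : Finset ℕ} {c : ℕ}
    (hS : ∀ y z : ℕ, y ≠ z → ((S + {y}) ∩ (S + {z})).card ≤ c) (R : Finset ℕ) :
    2 * (R.card * S.card) ≤ 2 * (S + R).card + c * R.card ^ 2 := by
  induction R using Finset.induction_on with
  | empty => simp
  | insert y R hy ih =>
    have h1 : S + insert y R = (S + {y}) ∪ (S + R) := by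
      rw [Finset.insert_eq, Finset.add_union]
    have h2 : ((S + {y}) ∩ (S + R)).card ≤ R.card * c := by
      obtain ⟨f, hf⟩ : ∃ f : ℕ → Finset ℕ, ∀ z : ℕ,
          f z = (S + ({y} : Finset ℕ)) ∩ (S + ({z} : Finset ℕ)) :=
        ⟨fun z : ℕ => (S + ({y} : Finset ℕ)) ∩ (S + ({z} : Finset ℕ)), fun _ => rfl⟩
      have hsub : (S + {y}) ∩ (S + R) ⊆ R.biUnion f := by
        intro x hx
        rw [Finset.mem_inter] at hx
        obtain ⟨hx1, hx2⟩ := hx
        rw [Finset.mem_add] at hx2
        obtain ⟨s, hs, z, hz, rfl⟩ := hx2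
        rw [Finset.mem_biUnion]
        refine ⟨z, hz, ?_⟩
        rw [hf]
        exact Finset.mem_inter.mpr
          ⟨hx1, Finset.add_mem_add hs (Finset.mem_singleton_self z)⟩
      have hle : ∀ z ∈ R, (f z).card ≤ c := by
        intro z hz
        have hyz : y ≠ z := fun h => hy (h ▸ hz)
        rw [hf]
        exact hS y z hyz
      exact (Finset.card_le_card hsub).trans (Finset.card_biUnion_le_card_mul R f c hle)
    have h3 : (S + {y}).card = S.card := by
      rw [Finset.add_singleton]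
      exact Finset.card_image_of_injective _ (fun a b h => by simpa using h)
    have h4 := Finset.card_union_add_card_inter (S + {y}) (S + R)
    rw [h1, Finset.card_insert_of_notMem hy]
    have h5 : ((S + {y}) ∪ (S + R)).card + R.card * c ≥ S.card + (S + R).card := by omega
    nlinarith

end Pool.Agent.Y384.SM.Quad
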