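import Pool.Agent.Y384.SM.Glob

/-! # One set of density zero for all sets with at least `g n` elements below `n` -/

set_option autoImplicit false

namespace Pool.Agent.Y384.SM.Slow

open Finset Filter Topology Pool.Agent.Y384.SM.Glob
open scoped Pointwise

lemma exists_adm (g : ℕ → ℕ) (hg : Tendsto g atTop atTop) :
    ∃ P : ℕ → ℕ, Adm P ∧ ∀ m, m ^ 2 ≤ g (P m) := by
  have h : ∀ m : ℕ, ∃ p : ℕ, p.Prime ∧ 2 < p ∧ 4 * m ^ 3 ≤ p ∧ m ^ 2 ≤ g p := by
    intro m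
    obtain ⟨K, hK⟩ := (tendsto_atTop_atTop.1 hg) (m ^ 2)
    obtain ⟨p, hp1, hp2⟩ := Nat.exists_infinite_primes (K + 4 * m ^ 3 + 3)
    exact ⟨p, hp2, by omega, by omega, hK p (by omega)⟩
  choose P h1 h2 h3 h4 using h
  exact ⟨P, ⟨h1, h2, h3⟩, h4⟩

lemma one_notMem_A (P : ℕ → ℕ) : 1 ∉ A P := by
  rintro (h | ⟨m, -, h, -⟩)
  · exact one_ne_zero h
  · have := T_ge_two P m
    omega

open Classical in
lemma exists_pieces {P g : ℕ → ℕ} (hP : Adm P) (hg : ∀ m, m ^ 2 ≤ g (P m)) {B : Set ℕ}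
    (hB : ∀ᶠ n in atTop, g n ≤ ((range n).filter (· ∈ B)).card) :
    ∃ m₀ D, Pieces P B m₀ D := by
  obtain ⟨K, hK⟩ := eventually_atTop.1 hB
  have h : ∀ m : ℕ, ∃ s : Finset ℕ, K + 1 ≤ m →
      (s ⊆ (range (P m)).filter (· ∈ B) ∧ s.card = m ^ 2) := by
    intro m
    by_cases hm : K + 1 ≤ m
    · have h1 : m ≤ m ^ 3 := Nat.le_self_pow (by norm_num) m
      have h2 := hP.big m
      have h3 := hK (P m) (by omega)
      obtain ⟨s, hs, hs'⟩ := exists_subset_card_eq ((hg m).trans h3)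
      exact ⟨s, fun _ => ⟨hs, hs'⟩⟩
    · exact ⟨∅, fun h => absurd h hm⟩
  choose D hD using h
  refine ⟨K + 1, D, ⟨fun m hm b hb => ?_, fun m hm => (hD m hm).2⟩⟩
  have h1 := (hD m hm).1 hb
  rw [mem_filter, mem_range] at h1
  exact ⟨h1.2, h1.1⟩

open Classical in
theorem slow (g : ℕ → ℕ) (hg : Tendsto g atTop atTop) :
    ∃ A : Set ℕ, 0 ∈ A ∧ 1 ∉ A ∧
      Tendsto (fun n : ℕ => (((Icc 1 n).filter (· ∈ A)).card : ℝ) / n) atTop (𝓝 0) ∧
      ∀ B : Set ℕ, (∀ᶠ n in atTop, g n ≤ ((range n).filter (· ∈ B)).card) →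
        Tendsto (fun n : ℕ => (((Icc 1 n).filter (· ∈ A + B)).card : ℝ) / n) atTop (𝓝 1) := by
  obtain ⟨P, hP, hgP⟩ := exists_adm g hg
  refine ⟨A P, Or.inl rfl, one_notMem_A P, ?_, ?_⟩
  · exact tendsto_of_stages P (fun n => ((Icc 1 n).filter (· ∈ A P)).card) 1
      (fun m n hm h1 h2 => A_count hP hm h1 h2)
  · intro B hB
    obtain ⟨m₀, D, hD⟩ := exists_pieces hP hgP hB
    have h0 := tendsto_of_stages P (fun n => ((Icc 1 n).filter (· ∉ A P + B)).card) (m₀ + 1)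
      (fun m n hm h1 h2 => miss_count hP hD (by omega) (by omega) h1 h2)
    have h1 : Tendsto (fun n : ℕ => 1 - (((Icc 1 n).filter (· ∉ A P + B)).card : ℝ) / n)
        atTop (𝓝 (1 - 0)) := tendsto_const_nhds.sub h0
    rw [sub_zero] at h1
    refine h1.congr' ?_
    filter_upwards [eventually_ge_atTop 1] with n hn
    have h2 : ((Icc 1 n).filter (· ∈ A P + B)).card +
        ((Icc 1 n).filter (· ∉ A P + B)).card = n := by
      rw [card_filter_add_card_filter_not, Nat.card_Icc, Nat.add_sub_cancel]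
    have h3 : (((Icc 1 n).filter (· ∈ A P + B)).card : ℝ) +
        ((Icc 1 n).filter (· ∉ A P + B)).card = n := by exact_mod_cast h2
    have h4 : (n : ℝ) ≠ 0 := by
      have : n ≠ 0 := by omega
      exact_mod_cast this
    rw [eq_div_iff h4, sub_mul, div_mul_cancel₀ _ h4, one_mul]
    linarith

end Pool.Agent.Y384.SM.Slow
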